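import Pool.Agent.H83.HE.All

/-!
# A lower bound for the proportion of reduced Hessenberg matrices for infinitely many types

For every `q ≥ 1` and all Hessenberg types `⟨0, 1 | a12, a22, q⟩` with `q ∣ a12^3 - a12 a22 - 1` (for
example `⟨0, 1 | 1, 0, q⟩`) every matrix `H(m,n)` of the type in an explicit class of `(m,n)` modulo `q`
is reduced, and the proportion of reduced matrices in the box `|m|, |n| ≤ N` is at least
`1/q - 3/(2N+1)`.

Idea: in the class the matrix satisfies a quadratic equation modulo `q`, so `q` divides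
`a21' a32'` for every conjugate Hessenberg matrix.

Paper proof: helper83. Lean parts: helpers 2, 13, 59, 64, 82, 83.
-/

set_option autoImplicit false

namespace Pool.Agent.Results.MP_7c801b_nt.LowerDensity

open Pool.Agent.H83.HE

/-- Lower bounds for the density of the reduced matrices of the types `⟨0, 1 | a12, a22, q⟩` with
`q ∣ a12^3 - a12 a22 - 1`. -/
theorem result :
    ∀ q a12 a22 a13 a23 a33 : ℤ, 1 ≤ q → 0 ≤ a12 → a12 < q → 0 ≤ a22 → a22 < q →
    q ∣ a12 ^ 3 - a12 * a22 - 1 → (H 0 1 a12 a22 q a13 a23 a33 0 0).det = 1 →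
    (∀ m n : ℤ, q ∣ a12 * (a12 * n + a13) - (m + a22 * n + a23) →
      Irr (H 0 1 a12 a22 q a13 a23 a33 m n) → Reduced (H 0 1 a12 a22 q a13 a23 a33 m n)) ∧
    ∀ N : ℕ, (1 : ℝ) / q - 3 / (2 * N + 1) ≤ dens 0 1 a12 a22 q a13 a23 a33 N :=
  t_FIN Pool.Agent.H13.HE.t_ALG Pool.Agent.H59.HE.t_DIV Pool.Agent.H82.HE.t_NZ
    Pool.Agent.H64.HE.t_RED Pool.Agent.H2.HE.t_CNT

end Pool.Agent.Results.MP_7c801b_nt.LowerDensity
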